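import Pool.Agent.Lib.MP_a31e1e_gt.Interfaces

/-!
# Module ATLAS of project TIGHT (MP_a31e1e_gt)

Charts in which `f` is a smooth immersion form a smooth atlas.
-/

open scoped ContDiff Manifold Topology RealInnerProductSpace
open Set Metric

namespace Pool.Agent.Tight.H3

noncomputable section

/-- A continuous lift of a smooth map through an immersion is smooth. -/
lemma lift_contDiffAt (g h : E2 → E3) (τ : E2 → E2) (b : E2)
    (hg : ContDiffAt ℝ ∞ g (τ b)) (hi : Function.Injective (fderiv ℝ g (τ b)))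
    (hτ : ContinuousAt τ b) (hh : ContDiffAt ℝ ∞ h b) (hgh : ∀ᶠ x in 𝓝 b, g (τ x) = h x) :
    ContDiffAt ℝ ∞ τ b := by
  set A : E2 →L[ℝ] E3 := fderiv ℝ g (τ b) with hA
  obtain ⟨B₀, hB₀⟩ := LinearMap.exists_leftInverse_of_injective (A : E2 →ₗ[ℝ] E3)
    (LinearMap.ker_eq_bot.mpr hi)
  set B : E3 →L[ℝ] E2 := LinearMap.toContinuousLinearMap B₀ with hB
  have hBA : B ∘L A = ContinuousLinearMap.id ℝ E2 := by
    ext x : 1
    exact LinearMap.congr_fun hB₀ x
  have hu : ContDiffAt ℝ ∞ (fun x => B (g x)) (τ b) := B.contDiff.contDiffAt.comp _ hg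
  have hgd : HasFDerivAt g A (τ b) := (hg.differentiableAt (by simp)).hasFDerivAt
  have hud : HasFDerivAt (fun x => B (g x))
      ((ContinuousLinearEquiv.refl ℝ E2 : E2 ≃L[ℝ] E2) : E2 →L[ℝ] E2) (τ b) := by
    have h1 := B.hasFDerivAt.comp (τ b) hgd
    rw [hBA] at h1
    exact h1
  have hinv : ContDiffAt ℝ ∞ (hu.localInverse hud (by simp)) (B (g (τ b))) :=
    hu.to_localInverse hud (by simp)
  have hleft : ∀ᶠ x in 𝓝 (τ b), hu.localInverse hud (by simp) (B (g x)) = x := by
    have := (hu.hasStrictFDerivAt' hud (by simp)).eventually_left_inverse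
    exact this
  have h2 : ∀ᶠ x in 𝓝 b, hu.localInverse hud (by simp) (B (g (τ x))) = τ x :=
    hτ.eventually hleft
  have hgh0 : g (τ b) = h b := hgh.self_of_nhds
  have h3 : ContDiffAt ℝ ∞ (fun x => hu.localInverse hud (by simp) (B (h x))) b := by
    have h4 : ContDiffAt ℝ ∞ (fun x => B (h x)) b := B.contDiff.contDiffAt.comp _ hh
    rw [hgh0] at hinv
    exact hinv.comp b h4
  refine h3.congr_of_eventuallyEq ?_
  filter_upwards [h2, hgh] with x hx1 hx2
  rw [← hx1, hx2]

/-- the chart as an open partial homeomorphism from the plane -/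
def chartInv {M : Type} [TopologicalSpace M] {f : M → E3} {p : M} {V : Set E2} {φ : E2 → M}
    {a : E2} (h : IsChart f p V φ a) : OpenPartialHomeomorph E2 M :=
  OpenPartialHomeomorph.ofContinuousOpenRestrict (InjOn.toPartialEquiv φ V h.inj) h.cont
    (by
      intro W hW
      obtain ⟨O, hO, rfl⟩ := isOpen_induced_iff.mp hW
      have h1 : (InjOn.toPartialEquiv φ V h.inj).source.domRestrict
          (InjOn.toPartialEquiv φ V h.inj) '' (Subtype.val ⁻¹' O) = φ '' (V ∩ O) := by
        ext y
        constructor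
        · rintro ⟨⟨x, hx⟩, hxO, rfl⟩
          exact ⟨x, ⟨hx, hxO⟩, rfl⟩
        · rintro ⟨x, ⟨hx, hxO⟩, rfl⟩
          exact ⟨⟨x, hx⟩, hxO, rfl⟩
      rw [h1]
      exact h.openMap _ inter_subset_left (h.isOpen.inter hO)) h.isOpen

lemma chartInv_coe {M : Type} [TopologicalSpace M] {f : M → E3} {p : M} {V : Set E2} {φ : E2 → M}
    {a : E2} (h : IsChart f p V φ a) : ⇑(chartInv h) = φ := rfl

lemma chartInv_source {M : Type} [TopologicalSpace M] {f : M → E3} {p : M} {V : Set E2}
    {φ : E2 → M} {a : E2} (h : IsChart f p V φ a) : (chartInv h).source = V := rfl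

/-- The main statement of the module. -/
theorem atlas : AtlasStatement := by
  intro M _ f hf
  choose V φ a hc using hf
  have hmem : ∀ p, p ∈ (chartInv (hc p)).symm.source := by
    intro p
    have : φ p (a p) ∈ (chartInv (hc p)).target :=
      (chartInv (hc p)).map_source (x := a p) (hc p).mem
    rw [(hc p).map] at this
    simpa using this
  let cs : ChartedSpace E2 M :=
    { atlas := Set.range fun p => (chartInv (hc p)).symm
      chartAt := fun p => (chartInv (hc p)).symm
      mem_chart_source := hmem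
      chart_mem_atlas := fun p => ⟨p, rfl⟩ }
  have hsm : ∀ p, ∀ b ∈ V p, ContDiffAt ℝ ∞ (f ∘ φ p) b := fun p b hb =>
    ((hc p).smooth b hb).contDiffAt ((hc p).isOpen.mem_nhds hb)
  have hch : ∀ p, chartAt E2 p = (chartInv (hc p)).symm := fun _ => rfl
  have h5 : ∀ p, (extChartAt 𝓘(ℝ, E3) (f p) ∘ f ∘ (extChartAt (𝓡 2) p).symm : E2 → E3)
      = f ∘ φ p := fun _ => rfl
  have h6 : ∀ p, (extChartAt (𝓡 2) p) p = (chartInv (hc p)).symm p := by
    intro p
    simp [extChartAt, hch]
  have h3 : ∀ p, (chartInv (hc p)).symm p ∈ V p := fun p =>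
    (chartInv (hc p)).map_target (hmem p)
  have hman : IsManifold (𝓡 2) ∞ M := by
    apply isManifold_of_contDiffOn
    rintro e e' ⟨p, rfl⟩ ⟨q, rfl⟩
    intro b hb
    have hb1 : b ∈ V p ∧ φ p b ∈ (chartInv (hc q)).target := by
      simpa [chartInv_source, chartInv_coe] using hb
    obtain ⟨hbV, hbT⟩ := hb1
    refine ContDiffAt.contDiffWithinAt ?_
    have key : ContDiffAt ℝ ∞ (fun x => (chartInv (hc q)).symm (φ p x)) b := by
      have hφc : ContinuousAt (φ p) b := (hc p).cont.continuousAt ((hc p).isOpen.mem_nhds hbV)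
      have hs : ContinuousAt (chartInv (hc q)).symm (φ p b) :=
        (chartInv (hc q)).symm.continuousAt (by simpa using hbT)
      have hV : (chartInv (hc q)).symm (φ p b) ∈ V q := (chartInv (hc q)).map_target hbT
      refine lift_contDiffAt (f ∘ φ q) (f ∘ φ p) _ b (hsm q _ hV) ((hc q).imm _ hV)
        (ContinuousAt.comp (f := φ p) (g := (chartInv (hc q)).symm) hs hφc) (hsm p b hbV) ?_
      have hopen : (chartInv (hc q)).target ∈ 𝓝 (φ p b) :=
        (chartInv (hc q)).open_target.mem_nhds hbT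
      filter_upwards [hφc hopen] with x hx
      have := (chartInv (hc q)).right_inv hx
      rw [chartInv_coe] at this
      simp [this]
    simpa [chartInv_coe, Function.comp_def] using key
  have hcm : ContMDiff (𝓡 2) 𝓘(ℝ, E3) ∞ f := by
    intro p
    rw [contMDiffAt_iff]
    refine ⟨?_, ?_⟩
    · have h1 : ContinuousAt (fun x => (f ∘ φ p) ((chartInv (hc p)).symm x)) p := by
        have h2 : ContinuousAt (chartInv (hc p)).symm p :=
          (chartInv (hc p)).symm.continuousAt (hmem p)
        exact ContinuousAt.comp (g := f ∘ φ p) (hsm p _ (h3 p)).continuousAt h2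
      refine h1.congr ?_
      filter_upwards [(chartInv (hc p)).open_target.mem_nhds (hmem p)] with x hx
      have := (chartInv (hc p)).right_inv hx
      rw [chartInv_coe] at this
      simp [this]
    · rw [h5, h6]
      exact (hsm p _ (h3 p)).contDiffWithinAt
  refine ⟨cs, hman, hcm, ?_⟩
  intro p
  have hd : MDifferentiableAt (𝓡 2) 𝓘(ℝ, E3) f p := (hcm p).mdifferentiableAt (by simp)
  have h7 : (writtenInExtChartAt (𝓡 2) 𝓘(ℝ, E3) p f : E2 → E3) = f ∘ φ p := rfl
  have h8 : mfderiv (𝓡 2) 𝓘(ℝ, E3) f p = fderiv ℝ (f ∘ φ p) ((chartInv (hc p)).symm p) := by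
    rw [hd.mfderiv, h6, h7]
    have : range (𝓡 2) = (univ : Set E2) := by simp
    rw [this, fderivWithin_univ]
  rw [h8]
  exact (hc p).imm _ (h3 p)

end

end Pool.Agent.Tight.H3
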